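import Pool.Agent.Work.MP_4eb3f9_an.Interface

/-!
# MP_4eb3f9_an, block I1: pointwise algebra
-/

open Complex MeasureTheory Filter Topology
open scoped ContDiff

namespace CMA
namespace BI

/-- The real form `bB` as a polynomial. -/
noncomputable def qf (A B P Q a0 a1 a2 a3 b0 b1 b2 b3 : ℝ) : ℝ :=
  (B * (a0 * b0 + a1 * b1) + A * (a2 * b2 + a3 * b3)
    - P * (a0 * b2 + a2 * b0 + a1 * b3 + a3 * b1)
    - Q * (a0 * b3 + a3 * b0 - a1 * b2 - a2 * b1)) / 4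

theorem qf_self_nonneg {A B P Q : ℝ} (hA : 0 ≤ A) (hB : 0 ≤ B)
    (hD : 0 ≤ A * B - P ^ 2 - Q ^ 2) (a0 a1 a2 a3 : ℝ) :
    0 ≤ qf A B P Q a0 a1 a2 a3 a0 a1 a2 a3 := by
  rcases hA.eq_or_lt with h | h
  · have hP : P = 0 := by
      subst h
      have : P ^ 2 + Q ^ 2 ≤ 0 := by nlinarith
      nlinarith [sq_nonneg P, sq_nonneg Q]
    have hQ : Q = 0 := by
      subst h
      have : P ^ 2 + Q ^ 2 ≤ 0 := by nlinarith
      nlinarith [sq_nonneg P, sq_nonneg Q]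
    subst hP hQ h
    unfold qf
    nlinarith [mul_nonneg hB (add_nonneg (mul_self_nonneg a0) (mul_self_nonneg a1))]
  · have e : A * (4 * qf A B P Q a0 a1 a2 a3 a0 a1 a2 a3)
        = (A * a2 - P * a0 + Q * a1) ^ 2 + (A * a3 - P * a1 - Q * a0) ^ 2
          + (A * B - P ^ 2 - Q ^ 2) * (a0 ^ 2 + a1 ^ 2) := by
      unfold qf; ring
    have h2 : 0 ≤ A * (4 * qf A B P Q a0 a1 a2 a3 a0 a1 a2 a3) := by
      rw [e]; positivity
    have h3 := nonneg_of_mul_nonneg_right h2 h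
    linarith

theorem qf_cs {A B P Q : ℝ} (hA : 0 ≤ A) (hB : 0 ≤ B)
    (hD : 0 ≤ A * B - P ^ 2 - Q ^ 2) (a0 a1 a2 a3 b0 b1 b2 b3 : ℝ) :
    qf A B P Q a0 a1 a2 a3 b0 b1 b2 b3 ^ 2 ≤
      qf A B P Q a0 a1 a2 a3 a0 a1 a2 a3 * qf A B P Q b0 b1 b2 b3 b0 b1 b2 b3 := by
  have key : ∀ t : ℝ, 0 ≤ qf A B P Q b0 b1 b2 b3 b0 b1 b2 b3 * (t * t)
      + (2 * qf A B P Q a0 a1 a2 a3 b0 b1 b2 b3) * t
      + qf A B P Q a0 a1 a2 a3 a0 a1 a2 a3 := by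
    intro t
    have h := qf_self_nonneg hA hB hD (a0 + t * b0) (a1 + t * b1) (a2 + t * b2) (a3 + t * b3)
    have e : qf A B P Q (a0 + t * b0) (a1 + t * b1) (a2 + t * b2) (a3 + t * b3)
        (a0 + t * b0) (a1 + t * b1) (a2 + t * b2) (a3 + t * b3)
        = qf A B P Q b0 b1 b2 b3 b0 b1 b2 b3 * (t * t)
      + (2 * qf A B P Q a0 a1 a2 a3 b0 b1 b2 b3) * t
      + qf A B P Q a0 a1 a2 a3 a0 a1 a2 a3 := by
      unfold qf; ring
    rw [← e]; exact h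
  have h := discrim_le_zero key
  unfold discrim at h
  nlinarith

theorem bB_eq_qf (φ α β : ℂ × ℂ → ℝ) (p : ℂ × ℂ) :
    bB φ α β p = qf (hzz φ p) (hww φ p) (hP φ p) (hQ φ p) (pd 0 α p) (pd 1 α p) (pd 2 α p)
      (pd 3 α p) (pd 0 β p) (pd 1 β p) (pd 2 β p) (pd 3 β p) := by
  unfold bB qf; rfl

theorem bB_nonneg {φ : ℂ × ℂ → ℝ} {p : ℂ × ℂ} (h : LPos φ p) (α : ℂ × ℂ → ℝ) :
    0 ≤ bB φ α α p := by
  rw [bB_eq_qf]
  exact qf_self_nonneg h.1 h.2.1 h.2.2 _ _ _ _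

theorem bB_cs {φ : ℂ × ℂ → ℝ} {p : ℂ × ℂ} (h : LPos φ p) (α β : ℂ × ℂ → ℝ) :
    bB φ α β p ^ 2 ≤ bB φ α α p * bB φ β β p := by
  simp only [bB_eq_qf]
  exact qf_cs h.1 h.2.1 h.2.2 _ _ _ _ _ _ _ _

theorem mM_nonneg {f g : ℂ × ℂ → ℝ} {p : ℂ × ℂ} (hf : LPos f p) (hg : LPos g p) :
    0 ≤ mM f g p := by
  obtain ⟨f1, f2, f3⟩ := hf
  obtain ⟨g1, g2, g3⟩ := hg
  unfold dH at f3 g3
  unfold mM
  generalize hzz f p = A at *
  generalize hww f p = B at *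
  generalize hP f p = P at *
  generalize hQ f p = Q at *
  generalize hzz g p = A' at *
  generalize hww g p = B' at *
  generalize hP g p = P' at *
  generalize hQ g p = Q' at *
  have h1 : (P * P' + Q * Q') ^ 2 ≤ (P ^ 2 + Q ^ 2) * (P' ^ 2 + Q' ^ 2) := by
    nlinarith [sq_nonneg (P * Q' - Q * P')]
  have h2 : (P ^ 2 + Q ^ 2) * (P' ^ 2 + Q' ^ 2) ≤ (A * B) * (A' * B') := by
    apply mul_le_mul (by linarith) (by linarith) (by positivity) (by positivity)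
  have h3 : (A * B) * (A' * B') ≤ ((B * A' + A * B') / 2) ^ 2 := by
    nlinarith [sq_nonneg (B * A' - A * B')]
  have h4 : 0 ≤ (B * A' + A * B') / 2 := by positivity
  have h5 : P * P' + Q * Q' ≤ (B * A' + A * B') / 2 :=
    le_of_sq_le_sq (h1.trans (h2.trans h3)) h4
  linarith

end BI

theorem stmt_I1 : Stmt_I1 :=
  ⟨fun _ α β _ h => ⟨BI.bB_nonneg h α, BI.bB_cs h α β⟩, fun _ _ _ hf hg => BI.mM_nonneg hf hg⟩

end CMA
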