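import Pool.Agent.Work.MP_4eb3f9_an.Basic

/-!
# MP_4eb3f9_an, block I2: integration by parts
-/

open Complex MeasureTheory Filter Topology
open scoped ContDiff

namespace CMA
namespace BI

/-- The (real 4 x 4) cofactor matrix of the Levi form of `φ`. -/
noncomputable def TT (φ : ℂ × ℂ → ℝ) : Fin 4 → Fin 4 → ℂ × ℂ → ℝ :=
  ![![fun p => hww φ p / 4, fun _ => 0, fun p => - (hP φ p / 4), fun p => - (hQ φ p / 4)],
    ![fun _ => 0, fun p => hww φ p / 4, fun p => hQ φ p / 4, fun p => - (hP φ p / 4)],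
    ![fun p => - (hP φ p / 4), fun p => hQ φ p / 4, fun p => hzz φ p / 4, fun _ => 0],
    ![fun p => - (hQ φ p / 4), fun p => - (hP φ p / 4), fun _ => 0, fun p => hzz φ p / 4]]

theorem TT_symm (φ : ℂ × ℂ → ℝ) (a b : Fin 4) : TT φ a b = TT φ b a := by
  fin_cases a <;> fin_cases b <;> rfl

theorem TT_smooth {φ : ℂ × ℂ → ℝ} (hφ : ContDiff ℝ ∞ φ) (a b : Fin 4) :
    ContDiff ℝ ∞ (TT φ a b) := by
  have h1 := (cd_hww hφ).div_const 4
  have h2 := (cd_hzz hφ).div_const 4
  have h3 := (cd_hP hφ).div_const 4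
  have h4 := (cd_hQ hφ).div_const 4
  have h0 : ContDiff ℝ ∞ (fun _ : ℂ × ℂ => (0 : ℝ)) := contDiff_const
  fin_cases a <;> fin_cases b
  · exact h1
  · exact h0
  · exact h3.neg
  · exact h4.neg
  · exact h0
  · exact h1
  · exact h4
  · exact h3.neg
  · exact h3.neg
  · exact h4
  · exact h2
  · exact h0
  · exact h4.neg
  · exact h3.neg
  · exact h0
  · exact h2

theorem bB_eq_sum (φ α β : ℂ × ℂ → ℝ) (p : ℂ × ℂ) :
    bB φ α β p = ∑ a, ∑ b, TT φ a b p * pd a α p * pd b β p := by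
  simp only [Fin.sum_univ_four, TT, Matrix.cons_val]
  unfold bB
  ring

theorem mM_eq_sum {f : ℂ × ℂ → ℝ} (hf : ContDiff ℝ ∞ f) (φ : ℂ × ℂ → ℝ) (p : ℂ × ℂ) :
    mM f φ p = ∑ a, ∑ b, TT φ a b p * pd a (pd b f) p := by
  simp only [Fin.sum_univ_four, TT, Matrix.cons_val]
  rw [pd_comm hf 2 0, pd_comm hf 3 1, pd_comm hf 3 0, pd_comm hf 2 1]
  unfold mM
  rw [show hww f p = (pd 2 (pd 2 f) p + pd 3 (pd 3 f) p) / 4 from rfl,
    show hzz f p = (pd 0 (pd 0 f) p + pd 1 (pd 1 f) p) / 4 from rfl,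
    show hP f p = (pd 0 (pd 2 f) p + pd 1 (pd 3 f) p) / 4 from rfl,
    show hQ f p = (pd 0 (pd 3 f) p - pd 1 (pd 2 f) p) / 4 from rfl]
  ring

theorem TT_div {φ : ℂ × ℂ → ℝ} (hφ : ContDiff ℝ ∞ φ) (b : Fin 4) (p : ℂ × ℂ) :
    ∑ a, pd a (TT φ a b) p = 0 := by
  have hd : ∀ (i j : Fin 4), ContDiff ℝ ∞ (pd i (pd j φ)) := fun i j => cd_pd (cd_pd hφ j) i
  have hww' : ∀ k : Fin 4, pd k (fun p => hww φ p / 4) p
      = (pd k (pd 2 (pd 2 φ)) p + pd k (pd 3 (pd 3 φ)) p) / 16 := by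
    intro k
    have e : (fun p => hww φ p / 4) = fun p => (1 / 16) * (pd 2 (pd 2 φ) p + pd 3 (pd 3 φ) p) := by
      funext p; unfold hww; ring
    rw [e, pd_const_mul _ ((hd 2 2).add (hd 3 3)), pd_add (hd 2 2) (hd 3 3)]
    ring
  have hzz' : ∀ k : Fin 4, pd k (fun p => hzz φ p / 4) p
      = (pd k (pd 0 (pd 0 φ)) p + pd k (pd 1 (pd 1 φ)) p) / 16 := by
    intro k
    have e : (fun p => hzz φ p / 4) = fun p => (1 / 16) * (pd 0 (pd 0 φ) p + pd 1 (pd 1 φ) p) := by
      funext p; unfold hzz; ring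
    rw [e, pd_const_mul _ ((hd 0 0).add (hd 1 1)), pd_add (hd 0 0) (hd 1 1)]
    ring
  have hP' : ∀ k : Fin 4, pd k (fun p => hP φ p / 4) p
      = (pd k (pd 0 (pd 2 φ)) p + pd k (pd 1 (pd 3 φ)) p) / 16 := by
    intro k
    have e : (fun p => hP φ p / 4) = fun p => (1 / 16) * (pd 0 (pd 2 φ) p + pd 1 (pd 3 φ) p) := by
      funext p; unfold hP; ring
    rw [e, pd_const_mul _ ((hd 0 2).add (hd 1 3)), pd_add (hd 0 2) (hd 1 3)]
    ring
  have hQ' : ∀ k : Fin 4, pd k (fun p => hQ φ p / 4) p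
      = (pd k (pd 0 (pd 3 φ)) p - pd k (pd 1 (pd 2 φ)) p) / 16 := by
    intro k
    have e : (fun p => hQ φ p / 4) = fun p => (1 / 16) * (pd 0 (pd 3 φ) p - pd 1 (pd 2 φ) p) := by
      funext p; unfold hQ; ring
    rw [e, pd_const_mul _ ((hd 0 3).sub (hd 1 2)), pd_sub (hd 0 3) (hd 1 2)]
    ring
  have hc : ∀ k : Fin 4, pd k (fun _ : ℂ × ℂ => (0 : ℝ)) p = 0 := fun k => pd_const 0 k
  have c3 : ∀ i j k : Fin 4, pd i (pd j (pd k φ)) p = pd j (pd i (pd k φ)) p := by
    intro i j k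
    rw [pd_comm (cd_pd hφ k) i j]
  have c3' : ∀ i j k : Fin 4, pd i (pd j (pd k φ)) p = pd i (pd k (pd j φ)) p := by
    intro i j k
    rw [pd_comm hφ j k]
  fin_cases b
  · simp only [Fin.sum_univ_four, TT, Matrix.cons_val, Fin.isValue, Fin.zero_eta, pd_neg, hww',
      hP', hQ', hc]
    rw [c3 2 0 2, c3 2 1 3, c3 3 0 3, c3 3 1 2, c3' 1 2 3]
    ring
  · simp only [Fin.sum_univ_four, TT, Matrix.cons_val, Fin.isValue, Fin.mk_one, pd_neg, hww',
      hP', hQ', hc]
    rw [c3 2 1 2, c3 3 1 3, c3 2 0 3, c3 3 0 2, c3' 0 2 3]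
    ring
  · simp only [Fin.sum_univ_four, TT, Matrix.cons_val, Fin.isValue, Fin.reduceFinMk, pd_neg,
      hzz', hP', hQ', hc]
    rw [c3 2 0 0, c3' 0 2 0, c3 2 1 1, c3' 1 2 1, c3 1 0 3]
    ring
  · simp only [Fin.sum_univ_four, TT, Matrix.cons_val, Fin.isValue, Fin.reduceFinMk, pd_neg,
      hzz', hP', hQ', hc]
    rw [c3 3 0 0, c3' 0 3 0, c3 3 1 1, c3' 1 3 1, c3 1 0 2]
    ring

/-- The first integration by parts. -/
theorem ibp1 {f φ u : ℂ × ℂ → ℝ} (hf : ContDiff ℝ ∞ f) (hφ : ContDiff ℝ ∞ φ)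
    (hu : ContDiff ℝ ∞ u) (hs : HasCompactSupport u) :
    ∫ p, u p * mM f φ p = - ∫ p, bB φ u f p := by
  -- `u M(f,φ) = sum_{a,b} (u T^{ab}) f_{ab}`
  have e1 : ∀ p, u p * mM f φ p = ∑ a, ∑ b, (u p * TT φ a b p) * pd a (pd b f) p := by
    intro p
    rw [mM_eq_sum hf, Finset.mul_sum]
    refine Finset.sum_congr rfl fun a _ => ?_
    rw [Finset.mul_sum]
    exact Finset.sum_congr rfl fun b _ => by ring
  have i1 : ∀ a b, Integrable (fun p => (u p * TT φ a b p) * pd a (pd b f) p) := by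
    intro a b
    exact integrable_of_cs ((hu.continuous.mul (TT_smooth hφ a b).continuous).mul
      (cd_pd (cd_pd hf b) a).continuous) ((hs.mul_right).mul_right)
  have i2 : ∀ a b, Integrable (fun p => TT φ a b p * pd a u p * pd b f p) := by
    intro a b
    exact integrable_of_cs (((TT_smooth hφ a b).continuous.mul (cd_pd hu a).continuous).mul
      (cd_pd hf b).continuous) (((hcs_pd hs a).mul_left).mul_right)
  have i3 : ∀ a b, Integrable (fun p => u p * pd a (TT φ a b) p * pd b f p) := by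
    intro a b
    exact integrable_of_cs ((hu.continuous.mul (cd_pd (TT_smooth hφ a b) a).continuous).mul
      (cd_pd hf b).continuous) ((hs.mul_right).mul_right)
  have e2 : ∀ a b, ∫ p, (u p * TT φ a b p) * pd a (pd b f) p
      = -(∫ p, TT φ a b p * pd a u p * pd b f p) - ∫ p, u p * pd a (TT φ a b) p * pd b f p := by
    intro a b
    rw [ibp (hu.mul (TT_smooth hφ a b)) (cd_pd hf b) (hs.mul_right) a,
      pd_mul hu (TT_smooth hφ a b) a]
    have : ∀ p, (u p * pd a (TT φ a b) p + TT φ a b p * pd a u p) * pd b f p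
      = TT φ a b p * pd a u p * pd b f p + u p * pd a (TT φ a b) p * pd b f p := by
      intro p; ring
    simp_rw [this]
    rw [integral_add (i2 a b) (i3 a b)]
    ring
  simp_rw [e1]
  rw [integral_finsetSum _ fun a _ => integrable_finsetSum _ fun b _ => i1 a b]
  simp_rw [integral_finsetSum _ fun b _ => i1 _ b, e2, Finset.sum_sub_distrib,
    Finset.sum_neg_distrib]
  have e3 : ∑ a, ∑ b, ∫ p, u p * pd a (TT φ a b) p * pd b f p = 0 := by
    rw [Finset.sum_comm]
    refine Finset.sum_eq_zero fun b _ => ?_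
    rw [← integral_finsetSum _ fun a _ => i3 a b]
    have : ∀ p, ∑ a, u p * pd a (TT φ a b) p * pd b f p = 0 := by
      intro p
      have h := TT_div hφ b p
      have e : ∑ a, u p * pd a (TT φ a b) p * pd b f p
          = u p * (∑ a, pd a (TT φ a b) p) * pd b f p := by
        rw [Finset.mul_sum, Finset.sum_mul]
      rw [e, h]; ring
    simp [this]
  rw [e3, sub_zero]
  congr 1
  simp_rw [bB_eq_sum]
  rw [integral_finsetSum _ fun a _ => integrable_finsetSum _ fun b _ => i2 a b]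
  refine Finset.sum_congr rfl fun a _ => ?_
  rw [integral_finsetSum _ fun b _ => i2 a b]

/-- The second integration by parts. -/
theorem ibp2 {f φ u : ℂ × ℂ → ℝ} (hf : ContDiff ℝ ∞ f) (hφ : ContDiff ℝ ∞ φ)
    (hu : ContDiff ℝ ∞ u) (hs : HasCompactSupport u) :
    ∫ p, f p * mM u φ p = - ∫ p, bB φ u f p := by
  have e1 : ∀ p, f p * mM u φ p = ∑ a, ∑ b, (TT φ a b p * pd a (pd b u) p) * f p := by
    intro p
    rw [mM_eq_sum hu, mul_comm, Finset.sum_mul]
    refine Finset.sum_congr rfl fun a _ => ?_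
    rw [Finset.sum_mul]
  have i1 : ∀ a b, Integrable (fun p => (TT φ a b p * pd a (pd b u) p) * f p) := by
    intro a b
    exact integrable_of_cs (((TT_smooth hφ a b).continuous.mul
      (cd_pd (cd_pd hu b) a).continuous).mul hf.continuous)
      (((hcs_pd (hcs_pd hs b) a).mul_left).mul_right)
  have i2 : ∀ a b, Integrable (fun p => TT φ a b p * pd b u p * pd a f p) := by
    intro a b
    exact integrable_of_cs (((TT_smooth hφ a b).continuous.mul (cd_pd hu b).continuous).mul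
      (cd_pd hf a).continuous) (((hcs_pd hs b).mul_left).mul_right)
  have i3 : ∀ a b, Integrable (fun p => f p * pd a (TT φ a b) p * pd b u p) := by
    intro a b
    exact integrable_of_cs ((hf.continuous.mul (cd_pd (TT_smooth hφ a b) a).continuous).mul
      (cd_pd hu b).continuous) ((hcs_pd hs b).mul_left)
  have e2 : ∀ a b, ∫ p, (TT φ a b p * pd a (pd b u) p) * f p
      = -(∫ p, TT φ a b p * pd b u p * pd a f p) - ∫ p, f p * pd a (TT φ a b) p * pd b u p := by
    intro a b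
    have e : ∀ p, (TT φ a b p * pd a (pd b u) p) * f p
        = (f p * TT φ a b p) * pd a (pd b u) p := by intro p; ring
    simp_rw [e]
    rw [ibp' (hf.mul (TT_smooth hφ a b)) (cd_pd hu b) (hcs_pd hs b) a,
      pd_mul hf (TT_smooth hφ a b) a]
    have : ∀ p, (f p * pd a (TT φ a b) p + TT φ a b p * pd a f p) * pd b u p
      = TT φ a b p * pd b u p * pd a f p + f p * pd a (TT φ a b) p * pd b u p := by
      intro p; ring
    simp_rw [this]
    rw [integral_add (i2 a b) (i3 a b)]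
    ring
  simp_rw [e1]
  rw [integral_finsetSum _ fun a _ => integrable_finsetSum _ fun b _ => i1 a b]
  simp_rw [integral_finsetSum _ fun b _ => i1 _ b, e2, Finset.sum_sub_distrib,
    Finset.sum_neg_distrib]
  have e3 : ∑ a, ∑ b, ∫ p, f p * pd a (TT φ a b) p * pd b u p = 0 := by
    rw [Finset.sum_comm]
    refine Finset.sum_eq_zero fun b _ => ?_
    rw [← integral_finsetSum _ fun a _ => i3 a b]
    have : ∀ p, ∑ a, f p * pd a (TT φ a b) p * pd b u p = 0 := by
      intro p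
      have h := TT_div hφ b p
      have e : ∑ a, f p * pd a (TT φ a b) p * pd b u p
          = f p * (∑ a, pd a (TT φ a b) p) * pd b u p := by
        rw [Finset.mul_sum, Finset.sum_mul]
      rw [e, h]; ring
    simp [this]
  rw [e3, sub_zero]
  congr 1
  have i2' : ∀ a b, Integrable (fun p => TT φ a b p * pd a u p * pd b f p) := by
    intro a b
    exact integrable_of_cs (((TT_smooth hφ a b).continuous.mul (cd_pd hu a).continuous).mul
      (cd_pd hf b).continuous) (((hcs_pd hs a).mul_left).mul_right)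
  simp_rw [bB_eq_sum]
  rw [integral_finsetSum _ fun a _ => integrable_finsetSum _ fun b _ => i2' a b]
  rw [Finset.sum_comm]
  refine Finset.sum_congr rfl fun a _ => ?_
  rw [integral_finsetSum _ fun b _ => i2' a b]
  refine Finset.sum_congr rfl fun b _ => ?_
  simp_rw [TT_symm φ b a]

end BI

theorem stmt_I2 : Stmt_I2 := by
  intro f φ u hf hφ hu hs
  refine ⟨BI.ibp1 hf hφ hu hs, ?_⟩
  rw [BI.ibp1 hf hφ hu hs, BI.ibp2 hf hφ hu hs]

end CMA
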