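import Pool.Agent.Work.MP_4eb3f9_an_helper29.I1
import Pool.Agent.Work.MP_4eb3f9_an_helper29.I2

/-!
# MP_4eb3f9_an, block I3: the energy chain
-/

open Complex MeasureTheory Filter Topology
open scoped ContDiff

namespace CMA
namespace BI

theorem pd_affine {g : ℂ × ℂ → ℝ} (hg : ContDiff ℝ ∞ g) (s : ℝ) (k : Fin 4) :
    pd k (fun q => -g q - s) = fun q => - pd k g q := by
  funext q
  have h := pd_sub_at (f := fun q => - g q) (g := fun _ => s) (p := q)
    ((cd_diff hg.neg) q) (differentiableAt_const _) k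
  rw [h, pd_neg, pd_const, sub_zero]

theorem pd_pd_affine {g : ℂ × ℂ → ℝ} (hg : ContDiff ℝ ∞ g) (s : ℝ) (j k : Fin 4) (p : ℂ × ℂ) :
    pd j (pd k (fun q => -g q - s)) p = - pd j (pd k g) p := by
  rw [pd_affine hg s k, pd_neg]

theorem mM_comp {c : ℝ → ℝ} (hc : ContDiff ℝ ∞ c) {l : ℂ × ℂ → ℝ} (hl : ContDiff ℝ ∞ l)
    (φ : ℂ × ℂ → ℝ) (p : ℂ × ℂ) :
    mM (fun q => c (l q)) φ p
      = deriv c (l p) * mM l φ p + deriv (deriv c) (l p) * bB φ l l p := by
  unfold mM
  rw [show hww (fun q => c (l q)) p = (pd 2 (pd 2 (fun q => c (l q))) p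
      + pd 3 (pd 3 (fun q => c (l q))) p) / 4 from rfl,
    show hzz (fun q => c (l q)) p = (pd 0 (pd 0 (fun q => c (l q))) p
      + pd 1 (pd 1 (fun q => c (l q))) p) / 4 from rfl,
    show hP (fun q => c (l q)) p = (pd 0 (pd 2 (fun q => c (l q))) p
      + pd 1 (pd 3 (fun q => c (l q))) p) / 4 from rfl,
    show hQ (fun q => c (l q)) p = (pd 0 (pd 3 (fun q => c (l q))) p
      - pd 1 (pd 2 (fun q => c (l q))) p) / 4 from rfl]
  simp only [pd_pd_comp hc hl]
  rw [show hww l p = (pd 2 (pd 2 l) p + pd 3 (pd 3 l) p) / 4 from rfl,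
    show hzz l p = (pd 0 (pd 0 l) p + pd 1 (pd 1 l) p) / 4 from rfl,
    show hP l p = (pd 0 (pd 2 l) p + pd 1 (pd 3 l) p) / 4 from rfl,
    show hQ l p = (pd 0 (pd 3 l) p - pd 1 (pd 2 l) p) / 4 from rfl]
  unfold bB
  ring

theorem mM_comp_affine {c : ℝ → ℝ} (hc : ContDiff ℝ ∞ c) {g : ℂ × ℂ → ℝ}
    (hg : ContDiff ℝ ∞ g) (s : ℝ) (φ : ℂ × ℂ → ℝ) (p : ℂ × ℂ) :
    mM (fun q => c (-g q - s)) φ p
      = - deriv c (-g p - s) * mM g φ p + deriv (deriv c) (-g p - s) * bB φ g g p := by
  have hl : ContDiff ℝ ∞ (fun q => -g q - s) := hg.neg.sub contDiff_const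
  rw [mM_comp hc hl]
  have e1 : mM (fun q => -g q - s) φ p = - mM g φ p := by
    unfold mM hww hzz hP hQ
    simp only [pd_pd_affine hg s]
    ring
  have e2 : bB φ (fun q => -g q - s) (fun q => -g q - s) p = bB φ g g p := by
    unfold bB
    simp only [pd_affine hg s]
    ring
  rw [e1, e2]
  ring

theorem bB_comp_left {c : ℝ → ℝ} (hc : ContDiff ℝ ∞ c) {g : ℂ × ℂ → ℝ}
    (hg : ContDiff ℝ ∞ g) (s : ℝ) (φ β : ℂ × ℂ → ℝ) (p : ℂ × ℂ) :
    bB φ (fun q => c (-g q - s)) β p = - deriv c (-g p - s) * bB φ g β p := by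
  have hl : ContDiff ℝ ∞ (fun q => -g q - s) := hg.neg.sub contDiff_const
  unfold bB
  simp only [pd_comp hc hl, pd_affine hg s]
  ring

theorem lev_compact {δ : ℝ} {f : ℂ × ℂ → ℝ} (hf : Continuous f) (hL : Lev δ f) :
    IsCompact {p | f p ≤ -δ} := by
  obtain ⟨ρ, -, h⟩ := hL
  refine Metric.isCompact_of_isClosed_isBounded (isClosed_le hf continuous_const) ?_
  refine (Metric.isBounded_closedBall (x := (0 : ℂ × ℂ)) (r := ρ)).subset ?_
  intro p hp
  rw [mem_closedBall_zero_iff, Prod.norm_def]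
  exact max_le (h p hp).1 (h p hp).2

theorem lev_bidisc {δ : ℝ} {f : ℂ × ℂ → ℝ} (hL : Lev δ f) {p : ℂ × ℂ} (hp : f p ≤ -δ) :
    p ∈ Bidisc := by
  obtain ⟨ρ, h1, h⟩ := hL
  exact ⟨(h p hp).1.trans_lt h1, (h p hp).2.trans_lt h1⟩

section cut
variable {δ : ℝ} {c : ℝ → ℝ}

theorem cut_deriv_zero (hc : IsCut δ c) {x : ℝ} (hx : x ≤ 0) : deriv c x = 0 := by
  have : IsLocalMin c x := Filter.Eventually.of_forall fun y => by
    rw [hc.zero x hx]; exact hc.nonneg y
  exact this.deriv_eq_zero

theorem cut_deriv2_zero (hc : IsCut δ c) {x : ℝ} (hx : x ≤ 0) : deriv (deriv c) x = 0 := by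
  have : IsLocalMin (deriv c) x := Filter.Eventually.of_forall fun y => by
    rw [cut_deriv_zero hc hx]; exact hc.deriv_nonneg y
  exact this.deriv_eq_zero

theorem cut_mono (hc : IsCut δ c) : Monotone c :=
  monotone_of_deriv_nonneg (hc.smooth.differentiable (by simp)) hc.deriv_nonneg

theorem cut_ineq (hδ : 0 < δ) (hc : IsCut δ c) (x : ℝ) :
    x * deriv c (x - 3 * δ) ≤ 3 * c (x - δ) := by
  rcases le_or_gt x (3 * δ) with h | h
  · rw [cut_deriv_zero hc (by linarith), mul_zero]
    have := hc.nonneg (x - δ)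
    linarith
  · have h1 := hc.ge (x - δ)
    have h2 := hc.deriv_le (x - 3 * δ)
    have h3 : x * deriv c (x - 3 * δ) ≤ x := by nlinarith
    linarith

/-- `c(-f - s)` with `s ≥ δ` is compactly supported. -/
theorem cut_hcs {f : ℂ × ℂ → ℝ} (hc : IsCut δ c) (hf : Continuous f) (hL : Lev δ f) {s : ℝ}
    (hs : δ ≤ s) : HasCompactSupport (fun p => c (-f p - s)) := by
  refine HasCompactSupport.intro (lev_compact hf hL) ?_
  intro p hp
  simp only [Set.mem_ofPred_eq, not_le] at hp
  exact hc.zero _ (by linarith)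

end cut

end BI

open BI in
theorem stmt_I3 : Stmt_I3 := by
  intro δ c f g φ hδ hc hf hg hφ hLf hLg hgf hf0 hφ0
  have hsf : ContDiff ℝ ∞ (eta c δ f) := hc.smooth.comp (hf.smooth.neg.sub contDiff_const)
  have hsg : ContDiff ℝ ∞ (eta c δ g) := hc.smooth.comp (hg.smooth.neg.sub contDiff_const)
  have hsX : ContDiff ℝ ∞ (fun p => c (-g p - δ)) :=
    hc.smooth.comp (hg.smooth.neg.sub contDiff_const)
  have kf : HasCompactSupport (eta c δ f) :=
    cut_hcs hc hf.smooth.continuous hLf (by linarith)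
  have kg : HasCompactSupport (eta c δ g) :=
    cut_hcs hc hg.smooth.continuous hLg (by linarith)
  have kX : HasCompactSupport (fun p => c (-g p - δ)) :=
    cut_hcs hc hg.smooth.continuous hLg le_rfl
  -- S1
  have s1 : ∫ p, bB φ (eta c δ f) (eta c δ f) p ≤ ∫ p, eta c δ f p * mM f φ p := by
    rw [ibp1 hf.smooth hφ.smooth hsf kf, ← integral_neg]
    have e1 : ∀ p, bB φ (eta c δ f) (eta c δ f) p
        = deriv c (-f p - 3 * δ) ^ 2 * bB φ f f p := by
      intro p
      have h1 := bB_comp_left hc.smooth hf.smooth (3 * δ) φ (fun q => c (-f q - 3 * δ)) p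
      have h2 := bB_comp_left hc.smooth hf.smooth (3 * δ) φ f p
      rw [bB_symm] at h2
      unfold eta
      rw [h1, h2]
      ring
    have e2 : ∀ p, -bB φ (eta c δ f) f p = deriv c (-f p - 3 * δ) * bB φ f f p := by
      intro p
      have h2 := bB_comp_left hc.smooth hf.smooth (3 * δ) φ f p
      unfold eta
      rw [h2]
      ring
    have k0 : HasCompactSupport (bB φ (eta c δ f) f) := by
      refine HasCompactSupport.intro (lev_compact hf.smooth.continuous hLf) ?_
      intro p hp
      simp only [Set.mem_ofPred_eq, not_le] at hp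
      have := e2 p
      rw [cut_deriv_zero hc (by linarith)] at this
      linarith
    have k1 : HasCompactSupport (bB φ (eta c δ f) (eta c δ f)) := by
      refine HasCompactSupport.intro (lev_compact hf.smooth.continuous hLf) ?_
      intro p hp
      simp only [Set.mem_ofPred_eq, not_le] at hp
      have := e1 p
      rw [cut_deriv_zero hc (by linarith)] at this
      rw [this]
      ring
    refine integral_mono (integrable_of_cs (cd_bB hφ.smooth hsf hsf).continuous k1)
      (integrable_of_cs (cd_bB hφ.smooth hsf hf.smooth).continuous k0).neg ?_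
    intro p
    simp only
    rw [e1, e2]
    have b0 := bB_nonneg (hφ.pos p) f
    have c0 := hc.deriv_nonneg (-f p - 3 * δ)
    have c1 := hc.deriv_le (-f p - 3 * δ)
    have : deriv c (-f p - 3 * δ) ^ 2 ≤ deriv c (-f p - 3 * δ) := by nlinarith
    exact mul_le_mul_of_nonneg_right this b0
  -- S2
  have s2 : ∫ p, eta c δ f p * mM f φ p ≤ ∫ p, eta c δ g p * mM f φ p := by
    refine integral_mono (integrable_of_cs (hsf.continuous.mul
      (cd_mM hf.smooth hφ.smooth).continuous) kf.mul_right) (integrable_of_cs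
      (hsg.continuous.mul (cd_mM hf.smooth hφ.smooth).continuous) kg.mul_right) ?_
    intro p
    simp only
    refine mul_le_mul_of_nonneg_right ?_ (mM_nonneg (hf.pos p) (hφ.pos p))
    by_cases hp : p ∈ Bidisc
    · have := hgf p hp
      exact cut_mono hc (by linarith)
    · have h1 : ¬ f p ≤ -δ := fun h => hp (lev_bidisc hLf h)
      have : eta c δ f p = 0 := by
        unfold eta
        exact hc.zero _ (by push Not at h1; linarith)
      rw [this]
      exact hc.nonneg _
  -- S3
  have s3 : ∫ p, eta c δ g p * mM f φ p = ∫ p, f p * mM (eta c δ g) φ p :=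
    (stmt_I2 f φ (eta c δ g) hf.smooth hφ.smooth hsg kg).2
  -- S4-S6
  have e4 : ∀ p, mM (eta c δ g) φ p = - deriv c (-g p - 3 * δ) * mM g φ p
      + deriv (deriv c) (-g p - 3 * δ) * bB φ g g p := fun p =>
    mM_comp_affine hc.smooth hg.smooth (3 * δ) φ p
  have s4 : ∫ p, f p * mM (eta c δ g) φ p ≤ ∫ p, 3 * (c (-g p - δ) * mM φ g p) := by
    have k4 : HasCompactSupport (fun p => f p * mM (eta c δ g) φ p) := by
      refine HasCompactSupport.intro (lev_compact hg.smooth.continuous hLg) ?_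
      intro p hp
      simp only [Set.mem_ofPred_eq, not_le] at hp
      rw [e4, cut_deriv_zero hc (by linarith), cut_deriv2_zero hc (by linarith)]
      ring
    refine integral_mono (integrable_of_cs (hf.smooth.continuous.mul
      (cd_mM hsg hφ.smooth).continuous) k4) (integrable_of_cs (continuous_const.mul
      (hsX.continuous.mul (cd_mM hφ.smooth hg.smooth).continuous)) kX.mul_right.mul_left) ?_
    intro p
    simp only
    rw [e4, mM_symm φ g]
    have m0 := mM_nonneg (hg.pos p) (hφ.pos p)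
    have b0 := bB_nonneg (hφ.pos p) g
    have hX := mul_nonneg (hc.nonneg (-g p - δ)) m0
    by_cases hp : g p ≤ -δ
    · have hpB := lev_bidisc hLg hp
      have h1 := hgf p hpB
      have h2 := hf0 p hpB
      have c0 := hc.deriv_nonneg (-g p - 3 * δ)
      have c2 := hc.convex (-g p - 3 * δ)
      have c3 := cut_ineq hδ hc (-g p)
      have t1 : (-f p) * (deriv c (-g p - 3 * δ) * mM g φ p)
          ≤ (-g p) * (deriv c (-g p - 3 * δ) * mM g φ p) :=
        mul_le_mul_of_nonneg_right (by linarith) (mul_nonneg c0 m0)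
      have t2 : f p * (deriv (deriv c) (-g p - 3 * δ) * bB φ g g p) ≤ 0 :=
        mul_nonpos_of_nonpos_of_nonneg h2 (mul_nonneg c2 b0)
      have t3 : (-g p * deriv c (-g p - 3 * δ)) * mM g φ p
          ≤ (3 * c (-g p - δ)) * mM g φ p := mul_le_mul_of_nonneg_right c3 m0
      nlinarith
    · push Not at hp
      rw [cut_deriv_zero hc (by linarith), cut_deriv2_zero hc (by linarith)]
      nlinarith
  -- S7
  have s7 : ∫ p, c (-g p - δ) * mM φ g p = ∫ p, φ p * mM (fun q => c (-g q - δ)) g p :=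
    (stmt_I2 φ g (fun p => c (-g p - δ)) hφ.smooth hg.smooth hsX kX).2
  have e7 : ∀ p, mM (fun q => c (-g q - δ)) g p = - deriv c (-g p - δ) * mM g g p
      + deriv (deriv c) (-g p - δ) * bB g g g p := fun p =>
    mM_comp_affine hc.smooth hg.smooth δ g p
  have s8 : ∫ p, φ p * mM (fun q => c (-g q - δ)) g p
      ≤ ∫ p in {p | g p ≤ -δ}, 2 * ((-φ p) * dH g p) := by
    have k7 : HasCompactSupport (fun p => φ p * mM (fun q => c (-g q - δ)) g p) := by
      refine HasCompactSupport.intro (lev_compact hg.smooth.continuous hLg) ?_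
      intro p hp
      simp only [Set.mem_ofPred_eq, not_le] at hp
      rw [e7, cut_deriv_zero hc (by linarith), cut_deriv2_zero hc (by linarith)]
      ring
    have hm : MeasurableSet {p | g p ≤ -δ} :=
      (lev_compact hg.smooth.continuous hLg).isClosed.measurableSet
    rw [← integral_indicator hm]
    refine integral_mono (integrable_of_cs (hφ.smooth.continuous.mul
      (cd_mM hsX hg.smooth).continuous) k7) ?_ ?_
    · rw [integrable_indicator_iff hm]
      exact (continuous_const.mul (hφ.smooth.continuous.neg.mul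
        (cd_dH hg.smooth).continuous)).continuousOn.integrableOn_compact
        (lev_compact hg.smooth.continuous hLg)
    · intro p
      simp only
      rw [e7, mM_self]
      by_cases hp : g p ≤ -δ
      · rw [Set.indicator_of_mem (show p ∈ {p | g p ≤ -δ} from hp)]
        have hpB := lev_bidisc hLg hp
        have h2 := hφ0 p hpB
        have b0 := bB_nonneg (hg.pos p) g
        have c0 := hc.deriv_nonneg (-g p - δ)
        have c1 := hc.deriv_le (-g p - δ)
        have c2 := hc.convex (-g p - δ)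
        have d0 := (hg.pos p).2.2
        have t2 : φ p * (deriv (deriv c) (-g p - δ) * bB g g g p) ≤ 0 :=
          mul_nonpos_of_nonpos_of_nonneg h2 (mul_nonneg c2 b0)
        have t3 : deriv c (-g p - δ) * (2 * ((-φ p) * dH g p)) ≤ 1 * (2 * ((-φ p) * dH g p)) :=
          mul_le_mul_of_nonneg_right c1 (by
            have := mul_nonneg (neg_nonneg.2 h2) d0
            linarith)
        nlinarith
      · rw [Set.indicator_of_notMem (show p ∉ {p | g p ≤ -δ} from hp)]
        push Not at hp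
        rw [cut_deriv_zero hc (by linarith), cut_deriv2_zero hc (by linarith)]
        simp
  calc ∫ p, bB φ (eta c δ f) (eta c δ f) p ≤ ∫ p, eta c δ f p * mM f φ p := s1
    _ ≤ ∫ p, eta c δ g p * mM f φ p := s2
    _ = ∫ p, f p * mM (eta c δ g) φ p := s3
    _ ≤ ∫ p, 3 * (c (-g p - δ) * mM φ g p) := s4
    _ = 3 * ∫ p, c (-g p - δ) * mM φ g p := integral_const_mul _ _
    _ = 3 * ∫ p, φ p * mM (fun q => c (-g q - δ)) g p := by rw [s7]
    _ ≤ 3 * ∫ p in {p | g p ≤ -δ}, 2 * ((-φ p) * dH g p) := by linarith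
    _ = 6 * ∫ p in {p | g p ≤ -δ}, (-φ p) * dH g p := by
        rw [integral_const_mul]; ring

end CMA
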