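import Pool.Agent.Work.MP_4eb3f9_an_helper29.I2

/-!
# MP_4eb3f9_an, block I4: the lower bound identity
-/

open Complex MeasureTheory Filter Topology
open scoped ContDiff

namespace CMA
namespace BI

theorem cd_fst {χ : ℂ → ℝ} (hχ : ContDiff ℝ ∞ χ) : ContDiff ℝ ∞ (fun q : ℂ × ℂ => χ q.1) :=
  hχ.comp contDiff_fst

theorem cd_snd {χ : ℂ → ℝ} (hχ : ContDiff ℝ ∞ χ) : ContDiff ℝ ∞ (fun q : ℂ × ℂ => χ q.2) :=
  hχ.comp contDiff_snd

theorem fderiv_fst_comp {χ : ℂ → ℝ} (hχ : ContDiff ℝ ∞ χ) (p v : ℂ × ℂ) :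
    fderiv ℝ (fun q : ℂ × ℂ => χ q.1) p v = fderiv ℝ χ p.1 v.1 := by
  have h1 : HasFDerivAt (fun q : ℂ × ℂ => χ q.1)
      ((fderiv ℝ χ p.1).comp (ContinuousLinearMap.fst ℝ ℂ ℂ)) p :=
    ((hχ.differentiable (by simp) p.1).hasFDerivAt).comp p (hasFDerivAt_fst)
  rw [h1.fderiv]
  simp

theorem fderiv_snd_comp {χ : ℂ → ℝ} (hχ : ContDiff ℝ ∞ χ) (p v : ℂ × ℂ) :
    fderiv ℝ (fun q : ℂ × ℂ => χ q.2) p v = fderiv ℝ χ p.2 v.2 := by
  have h1 : HasFDerivAt (fun q : ℂ × ℂ => χ q.2)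
      ((fderiv ℝ χ p.2).comp (ContinuousLinearMap.snd ℝ ℂ ℂ)) p :=
    ((hχ.differentiable (by simp) p.2).hasFDerivAt).comp p (hasFDerivAt_snd)
  rw [h1.fderiv]
  simp

theorem pd_fst2 {χ : ℂ → ℝ} (hχ : ContDiff ℝ ∞ χ) :
    pd 2 (fun q : ℂ × ℂ => χ q.1) = fun _ => 0 := by
  funext p
  unfold pd
  rw [fderiv_fst_comp hχ]
  simp [dir]

theorem pd_fst3 {χ : ℂ → ℝ} (hχ : ContDiff ℝ ∞ χ) :
    pd 3 (fun q : ℂ × ℂ => χ q.1) = fun _ => 0 := by
  funext p
  unfold pd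
  rw [fderiv_fst_comp hχ]
  simp [dir]

theorem pd_snd0 {χ : ℂ → ℝ} (hχ : ContDiff ℝ ∞ χ) :
    pd 0 (fun q : ℂ × ℂ => χ q.2) = fun _ => 0 := by
  funext p
  unfold pd
  rw [fderiv_snd_comp hχ]
  simp [dir]

theorem pd_snd1 {χ : ℂ → ℝ} (hχ : ContDiff ℝ ∞ χ) :
    pd 1 (fun q : ℂ × ℂ => χ q.2) = fun _ => 0 := by
  funext p
  unfold pd
  rw [fderiv_snd_comp hχ]
  simp [dir]

theorem ev_fst {χ : ℂ → ℝ} {p : ℂ × ℂ} (hp : p.1 ∉ tsupport χ) :
    (fun q : ℂ × ℂ => χ q.1) =ᶠ[𝓝 p] fun _ => 0 := by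
  have h := (isClosed_tsupport χ).isOpen_compl.mem_nhds hp
  have h2 := continuous_fst.continuousAt.preimage_mem_nhds h
  filter_upwards [h2] with q hq
  exact image_eq_zero_of_notMem_tsupport hq

theorem ev_snd {χ : ℂ → ℝ} {p : ℂ × ℂ} (hp : p.2 ∉ tsupport χ) :
    (fun q : ℂ × ℂ => χ q.2) =ᶠ[𝓝 p] fun _ => 0 := by
  have h := (isClosed_tsupport χ).isOpen_compl.mem_nhds hp
  have h2 := continuous_snd.continuousAt.preimage_mem_nhds h
  filter_upwards [h2] with q hq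
  exact image_eq_zero_of_notMem_tsupport hq

theorem pd_zero_of_ev {f : ℂ × ℂ → ℝ} {p : ℂ × ℂ} (h : f =ᶠ[𝓝 p] fun _ => 0) (k : Fin 4) :
    pd k f p = 0 := by
  rw [(pd_congr h k).eq_of_nhds, pd_const]

theorem pd_pd_zero_of_ev {f : ℂ × ℂ → ℝ} {p : ℂ × ℂ} (h : f =ᶠ[𝓝 p] fun _ => 0) (j k : Fin 4) :
    pd j (pd k f) p = 0 := by
  rw [pd_pd_congr h j k]
  have : pd k (fun _ : ℂ × ℂ => (0 : ℝ)) = fun _ => 0 := by funext q; exact pd_const 0 k
  rw [this, pd_const]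

theorem cs_prod {χ b : ℂ → ℝ} (hχ : HasCompactSupport χ) (hb : HasCompactSupport b)
    {F : ℂ × ℂ → ℝ} (h1 : ∀ p : ℂ × ℂ, p.1 ∉ tsupport χ → F p = 0)
    (h2 : ∀ p : ℂ × ℂ, p.2 ∉ tsupport b → F p = 0) : HasCompactSupport F := by
  refine HasCompactSupport.intro (IsCompact.prod hχ hb) ?_
  intro p hp
  rw [Set.mem_prod, not_and_or] at hp
  rcases hp with h | h
  · exact h1 p h
  · exact h2 p h

/-- The real form of `χ_z (∂_w̄ (f_w f_z̄) - ∂_z̄ |f_w|²)`. -/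
theorem bB_fst_identity {f : ℂ × ℂ → ℝ} (hf : ContDiff ℝ ∞ f) {χ : ℂ → ℝ}
    (hχ : ContDiff ℝ ∞ χ) (p : ℂ × ℂ) :
    16 * bB f (fun q => χ q.1) f p
      = pd 0 (fun q => χ q.1) p * (pd 2 (fun q => pd 0 f q * pd 2 f q + pd 1 f q * pd 3 f q) p
          - pd 3 (fun q => pd 1 f q * pd 2 f q - pd 0 f q * pd 3 f q) p)
        + pd 1 (fun q => χ q.1) p * (pd 3 (fun q => pd 0 f q * pd 2 f q + pd 1 f q * pd 3 f q) p
          + pd 2 (fun q => pd 1 f q * pd 2 f q - pd 0 f q * pd 3 f q) p)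
        - 4 * (pd 0 (fun q => χ q.1) p * pd 0 (gw f) p + pd 1 (fun q => χ q.1) p * pd 1 (gw f) p) := by
  have d0 := cd_pd hf 0
  have d1 := cd_pd hf 1
  have d2 := cd_pd hf 2
  have d3 := cd_pd hf 3
  have ea : ∀ k, pd k (fun q => pd 0 f q * pd 2 f q + pd 1 f q * pd 3 f q) p
      = (pd 0 f p * pd k (pd 2 f) p + pd 2 f p * pd k (pd 0 f) p)
        + (pd 1 f p * pd k (pd 3 f) p + pd 3 f p * pd k (pd 1 f) p) := by
    intro k
    rw [pd_add (d0.mul d2) (d1.mul d3), pd_mul d0 d2, pd_mul d1 d3]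
  have eb : ∀ k, pd k (fun q => pd 1 f q * pd 2 f q - pd 0 f q * pd 3 f q) p
      = (pd 1 f p * pd k (pd 2 f) p + pd 2 f p * pd k (pd 1 f) p)
        - (pd 0 f p * pd k (pd 3 f) p + pd 3 f p * pd k (pd 0 f) p) := by
    intro k
    rw [pd_sub (d1.mul d2) (d0.mul d3), pd_mul d1 d2, pd_mul d0 d3]
  have eg : ∀ k, pd k (gw f) p
      = (pd 2 f p * pd k (pd 2 f) p + pd 3 f p * pd k (pd 3 f) p) / 2 := by
    intro k
    have e : gw f = fun q => (1 / 4) * (pd 2 f q * pd 2 f q + pd 3 f q * pd 3 f q) := by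
      funext q; unfold gw; ring
    rw [e, pd_const_mul _ ((d2.mul d2).add (d3.mul d3)), pd_add (d2.mul d2) (d3.mul d3),
      pd_mul d2 d2, pd_mul d3 d3]
    ring
  rw [ea, ea, eb, eb, eg, eg]
  rw [pd_comm hf 2 0, pd_comm hf 2 1, pd_comm hf 3 0, pd_comm hf 3 1, pd_comm hf 3 2]
  unfold bB
  rw [pd_fst2 hχ, pd_fst3 hχ]
  rw [show hww f p = (pd 2 (pd 2 f) p + pd 3 (pd 3 f) p) / 4 from rfl,
    show hP f p = (pd 0 (pd 2 f) p + pd 1 (pd 3 f) p) / 4 from rfl,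
    show hQ f p = (pd 0 (pd 3 f) p - pd 1 (pd 2 f) p) / 4 from rfl]
  ring

theorem pointwise_cs (x0 x1 b2 b3 f0 f1 f2 f3 : ℝ) :
    (b2 * (x0 * (f0 * f2 + f1 * f3) + x1 * (f1 * f2 - f0 * f3))
      + b3 * (x1 * (f0 * f2 + f1 * f3) - x0 * (f1 * f2 - f0 * f3))) / 16
    ≤ Real.sqrt ((x0 ^ 2 + x1 ^ 2) / 4) * Real.sqrt ((b2 ^ 2 + b3 ^ 2) / 4)
        * Real.sqrt ((f0 ^ 2 + f1 ^ 2) / 4) * Real.sqrt ((f2 ^ 2 + f3 ^ 2) / 4) := by
  rw [← Real.sqrt_mul (by positivity), ← Real.sqrt_mul (by positivity),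
    ← Real.sqrt_mul (by positivity)]
  refine (le_abs_self _).trans (Real.abs_le_sqrt ?_)
  have h : (b2 * (x0 * (f0 * f2 + f1 * f3) + x1 * (f1 * f2 - f0 * f3))
      + b3 * (x1 * (f0 * f2 + f1 * f3) - x0 * (f1 * f2 - f0 * f3))) ^ 2
      ≤ (b2 ^ 2 + b3 ^ 2) * ((x0 * (f0 * f2 + f1 * f3) + x1 * (f1 * f2 - f0 * f3)) ^ 2
        + (x1 * (f0 * f2 + f1 * f3) - x0 * (f1 * f2 - f0 * f3)) ^ 2) := by
    generalize (x0 * (f0 * f2 + f1 * f3) + x1 * (f1 * f2 - f0 * f3)) = s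
    generalize (x1 * (f0 * f2 + f1 * f3) - x0 * (f1 * f2 - f0 * f3)) = t
    nlinarith [sq_nonneg (b2 * t - b3 * s)]
  have e : (b2 ^ 2 + b3 ^ 2) * ((x0 * (f0 * f2 + f1 * f3) + x1 * (f1 * f2 - f0 * f3)) ^ 2
        + (x1 * (f0 * f2 + f1 * f3) - x0 * (f1 * f2 - f0 * f3)) ^ 2)
      = (x0 ^ 2 + x1 ^ 2) * (b2 ^ 2 + b3 ^ 2) * (f0 ^ 2 + f1 ^ 2) * (f2 ^ 2 + f3 ^ 2) := by ring
  rw [e] at h
  have : ((b2 * (x0 * (f0 * f2 + f1 * f3) + x1 * (f1 * f2 - f0 * f3))
      + b3 * (x1 * (f0 * f2 + f1 * f3) - x0 * (f1 * f2 - f0 * f3))) / 16) ^ 2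
      = (b2 * (x0 * (f0 * f2 + f1 * f3) + x1 * (f1 * f2 - f0 * f3))
      + b3 * (x1 * (f0 * f2 + f1 * f3) - x0 * (f1 * f2 - f0 * f3))) ^ 2 / 256 := by ring
  rw [this]
  calc _ ≤ (x0 ^ 2 + x1 ^ 2) * (b2 ^ 2 + b3 ^ 2) * (f0 ^ 2 + f1 ^ 2) * (f2 ^ 2 + f3 ^ 2) / 256 := by
        linarith
    _ = _ := by ring

end BI

open BI in
theorem stmt_I4 : Stmt_I4 := by
  intro f χ b hf hχ cχ hb cb χ0 b0
  set X : ℂ × ℂ → ℝ := fun q => χ q.1 with hX
  set B : ℂ × ℂ → ℝ := fun q => b q.2 with hB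
  have sX : ContDiff ℝ ∞ X := cd_fst hχ
  have sB : ContDiff ℝ ∞ B := cd_snd hb
  have X2 : ∀ p, pd 2 X p = 0 := fun p => by rw [hX, pd_fst2 hχ]
  have X3 : ∀ p, pd 3 X p = 0 := fun p => by rw [hX, pd_fst3 hχ]
  have B0 : ∀ p, pd 0 B p = 0 := fun p => by rw [hB, pd_snd0 hb]
  have B1 : ∀ p, pd 1 B p = 0 := fun p => by rw [hB, pd_snd1 hb]
  have zX : ∀ p : ℂ × ℂ, p.1 ∉ tsupport χ → X p = 0 := fun p hp => (ev_fst hp).eq_of_nhds
  have zB : ∀ p : ℂ × ℂ, p.2 ∉ tsupport b → B p = 0 := fun p hp => (ev_snd hp).eq_of_nhds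
  have zX1 : ∀ (k : Fin 4) (p : ℂ × ℂ), p.1 ∉ tsupport χ → pd k X p = 0 :=
    fun k p hp => pd_zero_of_ev (ev_fst hp) k
  have zB1 : ∀ (k : Fin 4) (p : ℂ × ℂ), p.2 ∉ tsupport b → pd k B p = 0 :=
    fun k p hp => pd_zero_of_ev (ev_snd hp) k
  have zX2 : ∀ (j k : Fin 4) (p : ℂ × ℂ), p.1 ∉ tsupport χ → pd j (pd k X) p = 0 :=
    fun j k p hp => pd_pd_zero_of_ev (ev_fst hp) j k
  have hu : ContDiff ℝ ∞ (fun q => X q * B q) := sX.mul sB
  have ku : HasCompactSupport (fun q => X q * B q) :=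
    cs_prod cχ cb (fun p hp => by rw [zX p hp, zero_mul]) (fun p hp => by rw [zB p hp, mul_zero])
  -- Leibniz
  have hL : ∀ p, bB f (fun q => X q * B q) f p = X p * bB f B f p + B p * bB f X f p := by
    intro p
    unfold bB
    simp only [pd_mul sX sB]
    ring
  have zbB : ∀ p : ℂ × ℂ, p.2 ∉ tsupport b → bB f B f p = 0 := by
    intro p hp
    unfold bB
    simp only [zB1 _ p hp]
    ring
  have zbX : ∀ p : ℂ × ℂ, p.1 ∉ tsupport χ → bB f X f p = 0 := by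
    intro p hp
    unfold bB
    simp only [zX1 _ p hp]
    ring
  have cB : Continuous (bB f B f) := (cd_bB hf sB hf).continuous
  have cX : Continuous (bB f X f) := (cd_bB hf sX hf).continuous
  have i1 : Integrable (fun p => X p * bB f B f p) :=
    integrable_of_cs (sX.continuous.mul cB) (cs_prod cχ cb (fun p hp => by rw [zX p hp, zero_mul])
      (fun p hp => by rw [zbB p hp, mul_zero]))
  have i2 : Integrable (fun p => B p * bB f X f p) :=
    integrable_of_cs (sB.continuous.mul cX) (cs_prod cχ cb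
      (fun p hp => by rw [zbX p hp, mul_zero]) (fun p hp => by rw [zB p hp, zero_mul]))
  have main : 2 * ∫ p : ℂ × ℂ, χ p.1 * b p.2 * dH f p
      = -(∫ p, X p * bB f B f p) - ∫ p, B p * bB f X f p := by
    have h := ibp1 hf hf hu ku
    simp_rw [hL] at h
    rw [integral_add i1 i2] at h
    rw [← integral_const_mul]
    have e : ∀ p : ℂ × ℂ, 2 * (χ p.1 * b p.2 * dH f p) = X p * B p * mM f f p := by
      intro p; rw [mM_self]; simp only [hX, hB]; ring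
    simp_rw [e]
    rw [h]; ring
  -- first term
  have t1 : -(∫ p, X p * bB f B f p) ≤ ∫ p : ℂ × ℂ, χ p.1 * |bB f B f p| := by
    rw [← integral_neg]
    refine integral_mono i1.neg ?_ ?_
    · refine integrable_of_cs (sX.continuous.mul cB.abs) (cs_prod cχ cb
        (fun p hp => by
          have := zX p hp
          simp only [hX] at this ⊢
          rw [this, zero_mul])
        (fun p hp => by rw [zbB p hp, abs_zero, mul_zero]))
    · intro p
      simp only [hX]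
      have h1 := neg_le_abs (bB f B f p)
      have h2 := χ0 p.1
      have h3 := mul_le_mul_of_nonneg_left h1 h2
      simp only [hX] at *
      linarith
  -- second term
  set a' : ℂ × ℂ → ℝ := fun q => pd 0 f q * pd 2 f q + pd 1 f q * pd 3 f q with ha'
  set b' : ℂ × ℂ → ℝ := fun q => pd 1 f q * pd 2 f q - pd 0 f q * pd 3 f q with hb'
  have sa : ContDiff ℝ ∞ a' := ((cd_pd hf 0).mul (cd_pd hf 2)).add ((cd_pd hf 1).mul (cd_pd hf 3))
  have sb : ContDiff ℝ ∞ b' := ((cd_pd hf 1).mul (cd_pd hf 2)).sub ((cd_pd hf 0).mul (cd_pd hf 3))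
  have sg : ContDiff ℝ ∞ (gw f) := cd_gw hf
  have sXk : ∀ k, ContDiff ℝ ∞ (pd k X) := cd_pd sX
  have sBk : ∀ k, ContDiff ℝ ∞ (pd k B) := cd_pd sB
  have kBX : ∀ k, HasCompactSupport (fun q => B q * pd k X q) := fun k =>
    cs_prod cχ cb (fun p hp => by rw [zX1 k p hp, mul_zero]) (fun p hp => by rw [zB p hp, zero_mul])
  -- general integration by parts
  have G : ∀ (k j : Fin 4) (v : ℂ × ℂ → ℝ), ContDiff ℝ ∞ v →
      ∫ p, (B p * pd k X p) * pd j v p
        = -∫ p, (pd j B p * pd k X p + B p * pd j (pd k X) p) * v p := by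
    intro k j v hv
    rw [ibp (sB.mul (sXk k)) hv (kBX k) j, pd_mul sB (sXk k) j]
    congr 1
    refine integral_congr_ae (Filter.Eventually.of_forall fun p => ?_)
    simp only
    ring
  have X02 : ∀ p, pd 2 (pd 0 X) p = 0 := fun p => by
    rw [pd_comm sX 2 0, hX, pd_fst2 hχ, pd_const]
  have X03 : ∀ p, pd 3 (pd 0 X) p = 0 := fun p => by
    rw [pd_comm sX 3 0, hX, pd_fst3 hχ, pd_const]
  have X12 : ∀ p, pd 2 (pd 1 X) p = 0 := fun p => by
    rw [pd_comm sX 2 1, hX, pd_fst2 hχ, pd_const]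
  have X13 : ∀ p, pd 3 (pd 1 X) p = 0 := fun p => by
    rw [pd_comm sX 3 1, hX, pd_fst3 hχ, pd_const]
  have j1 : ∀ (k j : Fin 4) (v : ℂ × ℂ → ℝ), Continuous v →
      Integrable (fun p => (B p * pd k X p) * v p) := fun k j v hv =>
    integrable_of_cs ((sB.continuous.mul (sXk k).continuous).mul hv) (kBX k).mul_right
  have kBX1 : ∀ (j k : Fin 4) (v : ℂ × ℂ → ℝ), Continuous v →
      Integrable (fun p => (pd j B p * pd k X p) * v p) := fun j k v hv =>
    integrable_of_cs (((sBk j).continuous.mul (sXk k).continuous).mul hv)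
      (cs_prod cχ cb (fun p hp => by rw [zX1 k p hp, mul_zero, zero_mul])
        (fun p hp => by rw [zB1 j p hp, zero_mul, zero_mul]))
  have kBX2 : ∀ (j k : Fin 4) (v : ℂ × ℂ → ℝ), Continuous v →
      Integrable (fun p => (B p * pd j (pd k X) p) * v p) := fun j k v hv =>
    integrable_of_cs ((sB.continuous.mul (cd_pd (sXk k) j).continuous).mul hv)
      (cs_prod cχ cb (fun p hp => by rw [zX2 j k p hp, mul_zero, zero_mul])
        (fun p hp => by rw [zB p hp, zero_mul, zero_mul]))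
  have g1 : ∫ p, (B p * pd 0 X p) * pd 2 a' p = -∫ p, (pd 2 B p * pd 0 X p) * a' p := by
    rw [G 0 2 a' sa]; simp only [X02, mul_zero, add_zero]
  have g2 : ∫ p, (B p * pd 0 X p) * pd 3 b' p = -∫ p, (pd 3 B p * pd 0 X p) * b' p := by
    rw [G 0 3 b' sb]; simp only [X03, mul_zero, add_zero]
  have g3 : ∫ p, (B p * pd 1 X p) * pd 3 a' p = -∫ p, (pd 3 B p * pd 1 X p) * a' p := by
    rw [G 1 3 a' sa]; simp only [X13, mul_zero, add_zero]
  have g4 : ∫ p, (B p * pd 1 X p) * pd 2 b' p = -∫ p, (pd 2 B p * pd 1 X p) * b' p := by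
    rw [G 1 2 b' sb]; simp only [X12, mul_zero, add_zero]
  have g5 : ∫ p, (B p * pd 0 X p) * pd 0 (gw f) p = -∫ p, (B p * pd 0 (pd 0 X) p) * gw f p := by
    rw [G 0 0 _ sg]; simp only [B0, zero_mul, zero_add]
  have g6 : ∫ p, (B p * pd 1 X p) * pd 1 (gw f) p = -∫ p, (B p * pd 1 (pd 1 X) p) * gw f p := by
    rw [G 1 1 _ sg]; simp only [B1, zero_mul, zero_add]
  have ca := fun k => (cd_pd sa k).continuous
  have cb' := fun k => (cd_pd sb k).continuous
  have cg := fun k => (cd_pd sg k).continuous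
  have id1 : 16 * ∫ p, B p * bB f X f p
      = (∫ p, (B p * pd 0 X p) * pd 2 a' p) - (∫ p, (B p * pd 0 X p) * pd 3 b' p)
        + (∫ p, (B p * pd 1 X p) * pd 3 a' p) + (∫ p, (B p * pd 1 X p) * pd 2 b' p)
        - 4 * (∫ p, (B p * pd 0 X p) * pd 0 (gw f) p)
        - 4 * (∫ p, (B p * pd 1 X p) * pd 1 (gw f) p) := by
    have q1 : Integrable (fun p => B p * pd 0 X p * pd 2 a' p - B p * pd 0 X p * pd 3 b' p) :=
      (j1 0 0 _ (ca 2)).sub (j1 0 0 _ (cb' 3))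
    have q2 : Integrable (fun p => B p * pd 0 X p * pd 2 a' p - B p * pd 0 X p * pd 3 b' p
        + B p * pd 1 X p * pd 3 a' p) := q1.add (j1 1 0 _ (ca 3))
    have q3 : Integrable (fun p => B p * pd 0 X p * pd 2 a' p - B p * pd 0 X p * pd 3 b' p
        + B p * pd 1 X p * pd 3 a' p + B p * pd 1 X p * pd 2 b' p) := q2.add (j1 1 0 _ (cb' 2))
    have q4 : Integrable (fun p => B p * pd 0 X p * pd 2 a' p - B p * pd 0 X p * pd 3 b' p
        + B p * pd 1 X p * pd 3 a' p + B p * pd 1 X p * pd 2 b' p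
        - 4 * (B p * pd 0 X p * pd 0 (gw f) p)) := q3.sub ((j1 0 0 _ (cg 0)).const_mul 4)
    rw [← integral_const_mul, ← integral_const_mul, ← integral_const_mul,
      ← integral_sub (j1 0 0 _ (ca 2)) (j1 0 0 _ (cb' 3)),
      ← integral_add q1 (j1 1 0 _ (ca 3)),
      ← integral_add q2 (j1 1 0 _ (cb' 2)),
      ← integral_sub q3 ((j1 0 0 _ (cg 0)).const_mul 4),
      ← integral_sub q4 ((j1 1 0 _ (cg 1)).const_mul 4)]
    refine integral_congr_ae (Filter.Eventually.of_forall fun p => ?_)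
    have h := bB_fst_identity hf hχ p
    simp only
    have e : 16 * (B p * bB f X f p) = B p * (16 * bB f (fun q => χ q.1) f p) := by
      simp only [hX]; ring
    rw [e, h]
    simp only [← hX, ← ha', ← hb']
    ring
  have t2 : -(∫ p, B p * bB f X f p)
      ≤ (∫ p : ℂ × ℂ, b p.2 * |hzz X p| * gw f p)
      + ∫ p : ℂ × ℂ, Real.sqrt (gz X p) * Real.sqrt (gw B p)
          * Real.sqrt (gz f p) * Real.sqrt (gw f p) := by
    rw [g1, g2, g3, g4, g5, g6] at id1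
    have id2 : -(∫ p, B p * bB f X f p)
        = (1 / 16) * ((∫ p, (pd 2 B p * pd 0 X p) * a' p) - (∫ p, (pd 3 B p * pd 0 X p) * b' p)
          + (∫ p, (pd 3 B p * pd 1 X p) * a' p) + (∫ p, (pd 2 B p * pd 1 X p) * b' p))
          - (1 / 4) * ((∫ p, (B p * pd 0 (pd 0 X) p) * gw f p)
            + ∫ p, (B p * pd 1 (pd 1 X) p) * gw f p) := by linarith
    rw [id2]
    have c1 := sa.continuous
    have c2 := sb.continuous
    have c3 := sg.continuous
    have ch : Continuous (hzz X) := (cd_hzz sX).continuous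
    have p1 : -((1 / 4) * ((∫ p, (B p * pd 0 (pd 0 X) p) * gw f p)
            + ∫ p, (B p * pd 1 (pd 1 X) p) * gw f p))
        ≤ ∫ p : ℂ × ℂ, b p.2 * |hzz X p| * gw f p := by
      rw [← integral_add (kBX2 0 0 _ c3) (kBX2 1 1 _ c3), ← integral_const_mul, ← integral_neg]
      refine integral_mono (((kBX2 0 0 _ c3).add (kBX2 1 1 _ c3)).const_mul _).neg ?_ ?_
      · refine integrable_of_cs ((sB.continuous.mul ch.abs).mul c3) (cs_prod cχ cb
          (fun p hp => ?_) (fun p hp => ?_))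
        · have : hzz X p = 0 := by unfold hzz; rw [zX2 0 0 p hp, zX2 1 1 p hp]; simp
          rw [this]; simp
        · have := zB p hp
          simp only [hB] at this ⊢
          rw [this]; simp
      · intro p
        simp only
        have e : -(1 / 4 * (B p * pd 0 (pd 0 X) p * gw f p + B p * pd 1 (pd 1 X) p * gw f p))
            = (b p.2 * gw f p) * (-hzz X p) := by
          unfold hzz; simp only [hB]; ring
        rw [e]
        have h1 : b p.2 * |hzz X p| * gw f p = (b p.2 * gw f p) * |hzz X p| := by ring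
        rw [h1]
        exact mul_le_mul_of_nonneg_left (neg_le_abs _) (mul_nonneg (b0 _) (gw_nonneg f p))
    have p2 : (1 / 16) * ((∫ p, (pd 2 B p * pd 0 X p) * a' p) - (∫ p, (pd 3 B p * pd 0 X p) * b' p)
          + (∫ p, (pd 3 B p * pd 1 X p) * a' p) + (∫ p, (pd 2 B p * pd 1 X p) * b' p))
        ≤ ∫ p : ℂ × ℂ, Real.sqrt (gz X p) * Real.sqrt (gw B p)
          * Real.sqrt (gz f p) * Real.sqrt (gw f p) := by
      have q1 : Integrable (fun p => pd 2 B p * pd 0 X p * a' p - pd 3 B p * pd 0 X p * b' p) :=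
        (kBX1 2 0 _ c1).sub (kBX1 3 0 _ c2)
      have q2 : Integrable (fun p => pd 2 B p * pd 0 X p * a' p - pd 3 B p * pd 0 X p * b' p
          + pd 3 B p * pd 1 X p * a' p) := q1.add (kBX1 3 1 _ c1)
      have q3 : Integrable (fun p => pd 2 B p * pd 0 X p * a' p - pd 3 B p * pd 0 X p * b' p
          + pd 3 B p * pd 1 X p * a' p + pd 2 B p * pd 1 X p * b' p) := q2.add (kBX1 2 1 _ c2)
      rw [← integral_sub (kBX1 2 0 _ c1) (kBX1 3 0 _ c2),
        ← integral_add q1 (kBX1 3 1 _ c1),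
        ← integral_add q2 (kBX1 2 1 _ c2), ← integral_const_mul]
      refine integral_mono (q3.const_mul _) ?_ ?_
      · refine integrable_of_cs ?_ (cs_prod cχ cb (fun p hp => ?_) (fun p hp => ?_))
        · exact (((Real.continuous_sqrt.comp (cd_gz sX).continuous).mul
            (Real.continuous_sqrt.comp (cd_gw sB).continuous)).mul
            (Real.continuous_sqrt.comp (cd_gz hf).continuous)).mul
            (Real.continuous_sqrt.comp (cd_gw hf).continuous)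
        · have : gz X p = 0 := by unfold gz; rw [zX1 0 p hp, zX1 1 p hp]; simp
          rw [this]; simp
        · have : gw B p = 0 := by unfold gw; rw [zB1 2 p hp, zB1 3 p hp]; simp
          rw [this]; simp
      · intro p
        simp only
        have h := pointwise_cs (pd 0 X p) (pd 1 X p) (pd 2 B p) (pd 3 B p) (pd 0 f p) (pd 1 f p)
          (pd 2 f p) (pd 3 f p)
        have e : 1 / 16 * (pd 2 B p * pd 0 X p * a' p - pd 3 B p * pd 0 X p * b' p
            + pd 3 B p * pd 1 X p * a' p + pd 2 B p * pd 1 X p * b' p)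
            = (pd 2 B p * (pd 0 X p * (pd 0 f p * pd 2 f p + pd 1 f p * pd 3 f p)
                + pd 1 X p * (pd 1 f p * pd 2 f p - pd 0 f p * pd 3 f p))
              + pd 3 B p * (pd 1 X p * (pd 0 f p * pd 2 f p + pd 1 f p * pd 3 f p)
                - pd 0 X p * (pd 1 f p * pd 2 f p - pd 0 f p * pd 3 f p))) / 16 := by
          simp only [ha', hb']; ring
        rw [e]
        exact h
    linarith
  rw [main]
  linarith

end CMA
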